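import Pool.Agent.Helper54.SRD.Basic

/-! Packet SRD-DB2 (helper54, MP_d08e19): the first variation of the energy. -/

open Set Filter MeasureTheory
open scoped Manifold ContDiff Topology

noncomputable section

set_option maxSynthPendingDepth 3

namespace Pool.Agent.Helper53.SRD

open Pool.Agent.Helper54.SRD

theorem db2 (E : Type*) [NormedAddCommGroup E] [NormedSpace ℝ E] [FiniteDimensional ℝ E] :
    S_DB2 E := by
  intro U G β a b K hU hG hPD hab hβ hβU V hV hVc hVs hmin
  have : ProperSpace E := FiniteDimensional.proper_real E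
  have hβc : ContinuousOn β (Icc a b) := hβ.continuousOn
  -- a compact neighbourhood
  have hcK : IsCompact (β '' Icc a b) := isCompact_Icc.image_of_continuousOn hβc
  have hsubK : β '' Icc a b ⊆ U := by
    rintro _ ⟨t, ht, rfl⟩
    exact hβU t ht
  obtain ⟨δ, hδ, hδU⟩ := hcK.exists_cthickening_subset_open hU hsubK
  set K' := Metric.cthickening δ (β '' Icc a b) with hK'
  have hK'c : IsCompact K' := hcK.cthickening
  have hGc : ContinuousOn G U := hG.continuousOn
  have hGd : ContinuousOn (fderiv ℝ G) U := hG.continuousOn_fderiv_of_isOpen hU (by simp)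
  obtain ⟨C1, hC1⟩ := hK'c.exists_bound_of_continuousOn (hGc.mono hδU)
  obtain ⟨C2, hC2⟩ := hK'c.exists_bound_of_continuousOn (hGd.mono hδU)
  have hVcont : Continuous V := hV.continuous
  have hV'cont : Continuous (deriv V) := hV.continuous_deriv (by simp)
  obtain ⟨A, hA⟩ := isCompact_Icc.exists_bound_of_continuousOn (s := Icc a b) hVcont.continuousOn
  obtain ⟨B, hB⟩ := isCompact_Icc.exists_bound_of_continuousOn (s := Icc a b) hV'cont.continuousOn
  have ha_mem : a ∈ Icc a b := ⟨le_rfl, hab.le⟩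
  have hA0 : 0 ≤ A := (norm_nonneg _).trans (hA a ha_mem)
  have hB0 : 0 ≤ B := (norm_nonneg _).trans (hB a ha_mem)
  have hmemK : ∀ t ∈ Icc a b, β t ∈ K' := fun t ht =>
    Metric.self_subset_cthickening _ ⟨t, ht, rfl⟩
  have hC10 : 0 ≤ C1 := (norm_nonneg _).trans (hC1 _ (hmemK a ha_mem))
  have hC20 : 0 ≤ C2 := (norm_nonneg _).trans (hC2 _ (hmemK a ha_mem))
  set s0 : ℝ := min 1 (δ / (A + 1)) with hs0
  have hs0pos : 0 < s0 := lt_min one_pos (by positivity)
  have hsmall : ∀ s : ℝ, |s| ≤ s0 → ∀ t ∈ Icc a b, β t + s • V t ∈ K' := by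
    intro s hs t ht
    refine Metric.mem_cthickening_of_dist_le _ (β t) δ _ ⟨t, ht, rfl⟩ ?_
    rw [dist_eq_norm, add_sub_cancel_left, norm_smul, Real.norm_eq_abs]
    have h1 : |s| ≤ δ / (A + 1) := hs.trans (min_le_right _ _)
    calc |s| * ‖V t‖ ≤ δ / (A + 1) * A :=
          mul_le_mul h1 (hA t ht) (norm_nonneg _) (by positivity)
      _ ≤ δ := by
          rw [div_mul_eq_mul_div, div_le_iff₀ (by positivity)]
          nlinarith
  have hp : ∀ t ∈ Ioo a b, ‖deriv β t‖ ≤ K := fun t ht =>
    norm_deriv_le_of_lipschitzOn (Icc_mem_nhds ht.1 ht.2) hβ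
  set P : ℝ := K + B with hPdef
  have hP0 : 0 ≤ P := by positivity
  have hq : ∀ s : ℝ, |s| ≤ s0 → ∀ t ∈ Ioo a b, ‖deriv β t + s • deriv V t‖ ≤ P := by
    intro s hs t ht
    have h1 : |s| ≤ 1 := hs.trans (min_le_left _ _)
    have h2 := hB t (Ioo_subset_Icc_self ht)
    calc ‖deriv β t + s • deriv V t‖ ≤ ‖deriv β t‖ + ‖s • deriv V t‖ := norm_add_le _ _
      _ ≤ K + 1 * B := by
          rw [norm_smul, Real.norm_eq_abs]
          exact add_le_add (hp t ht) (mul_le_mul h1 h2 (norm_nonneg _) zero_le_one)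
      _ = P := by rw [one_mul]
  -- the integrand and its derivative
  let F : ℝ → ℝ → ℝ := fun s t =>
    G (β t + s • V t) (deriv β t + s • deriv V t) (deriv β t + s • deriv V t)
  let F' : ℝ → ℝ → ℝ := fun s t =>
    ((fderiv ℝ G (β t + s • V t) (V t)) (deriv β t + s • deriv V t)
      + G (β t + s • V t) (deriv V t)) (deriv β t + s • deriv V t)
      + G (β t + s • V t) (deriv β t + s • deriv V t) (deriv V t)
  have hsub : Ioo a b ⊆ Icc a b := Ioo_subset_Icc_self
  -- measurability
  have hball : ∀ᶠ s : ℝ in 𝓝 0, |s| ≤ s0 := by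
    have h1 : Metric.closedBall (0:ℝ) s0 ∈ 𝓝 (0:ℝ) := Metric.closedBall_mem_nhds _ hs0pos
    filter_upwards [h1] with s hs
    simpa [Real.norm_eq_abs] using hs
  have mG : ∀ s : ℝ, |s| ≤ s0 → AEStronglyMeasurable (fun t => G (β t + s • V t))
      (volume.restrict (Ioo a b)) := by
    intro s hs
    refine ContinuousOn.aestronglyMeasurable ?_ measurableSet_Ioo
    refine hGc.comp ((hβc.mono hsub).add (hVcont.const_smul s).continuousOn) ?_
    intro t ht
    exact hδU (hsmall s hs t (hsub ht))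
  have mDG : ∀ s : ℝ, |s| ≤ s0 → AEStronglyMeasurable (fun t => fderiv ℝ G (β t + s • V t))
      (volume.restrict (Ioo a b)) := by
    intro s hs
    refine ContinuousOn.aestronglyMeasurable ?_ measurableSet_Ioo
    refine hGd.comp ((hβc.mono hsub).add (hVcont.const_smul s).continuousOn) ?_
    intro t ht
    exact hδU (hsmall s hs t (hsub ht))
  have mq : ∀ s : ℝ, AEStronglyMeasurable (fun t => deriv β t + s • deriv V t)
      (volume.restrict (Ioo a b)) := by
    intro s
    exact (aestronglyMeasurable_deriv β _).add (hV'cont.const_smul s).aestronglyMeasurable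
  have mV : AEStronglyMeasurable V (volume.restrict (Ioo a b)) := hVcont.aestronglyMeasurable
  have mV' : AEStronglyMeasurable (deriv V) (volume.restrict (Ioo a b)) :=
    hV'cont.aestronglyMeasurable
  have cont3 : Continuous (fun x : Bil E × E × E => x.1 x.2.1 x.2.2) := by fun_prop
  have mF : ∀ s : ℝ, |s| ≤ s0 → AEStronglyMeasurable (F s) (volume.restrict (Ioo a b)) := by
    intro s hs
    exact cont3.comp_aestronglyMeasurable ((mG s hs).prodMk ((mq s).prodMk (mq s)))
  have cont4 : Continuous (fun x : (E →L[ℝ] Bil E) × E × E × E => x.1 x.2.1 x.2.2.1 x.2.2.2) := by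
    fun_prop
  have h00 : |(0:ℝ)| ≤ s0 := by simpa using hs0pos.le
  have mF' : AEStronglyMeasurable (F' 0) (volume.restrict (Ioo a b)) := by
    have h1 := cont4.comp_aestronglyMeasurable
      ((mDG 0 h00).prodMk (mV.prodMk ((mq 0).prodMk (mq 0))))
    have h2 := cont3.comp_aestronglyMeasurable ((mG 0 h00).prodMk (mV'.prodMk (mq 0)))
    have h3 := cont3.comp_aestronglyMeasurable ((mG 0 h00).prodMk ((mq 0).prodMk mV'))
    exact (h1.add h2).add h3
  -- bounds
  have bF : ∀ s : ℝ, |s| ≤ s0 → ∀ t ∈ Ioo a b, ‖F s t‖ ≤ C1 * P * P := by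
    intro s hs t ht
    have h1 := hC1 _ (hsmall s hs t (hsub ht))
    have h2 := hq s hs t ht
    calc ‖F s t‖ ≤ ‖G (β t + s • V t)‖ * ‖deriv β t + s • deriv V t‖
          * ‖deriv β t + s • deriv V t‖ := ContinuousLinearMap.le_opNorm₂ _ _ _
      _ ≤ C1 * P * P := by gcongr
  have bF' : ∀ s : ℝ, |s| ≤ s0 → ∀ t ∈ Ioo a b,
      ‖F' s t‖ ≤ C2 * A * P * P + C1 * B * P + C1 * P * B := by
    intro s hs t ht
    have h1 := hC1 _ (hsmall s hs t (hsub ht))
    have h1' := hC2 _ (hsmall s hs t (hsub ht))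
    have h2 := hq s hs t ht
    have h3 := hA t (hsub ht)
    have h4 := hB t (hsub ht)
    have e1 : ‖(fderiv ℝ G (β t + s • V t) (V t)) (deriv β t + s • deriv V t)
        (deriv β t + s • deriv V t)‖ ≤ C2 * A * P * P := by
      calc _ ≤ ‖fderiv ℝ G (β t + s • V t) (V t)‖ * ‖deriv β t + s • deriv V t‖
            * ‖deriv β t + s • deriv V t‖ := ContinuousLinearMap.le_opNorm₂ _ _ _
        _ ≤ (‖fderiv ℝ G (β t + s • V t)‖ * ‖V t‖) * ‖deriv β t + s • deriv V t‖
            * ‖deriv β t + s • deriv V t‖ := by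
              gcongr
              exact ContinuousLinearMap.le_opNorm _ _
        _ ≤ C2 * A * P * P := by gcongr
    have e2 : ‖G (β t + s • V t) (deriv V t) (deriv β t + s • deriv V t)‖ ≤ C1 * B * P := by
      calc _ ≤ ‖G (β t + s • V t)‖ * ‖deriv V t‖ * ‖deriv β t + s • deriv V t‖ :=
            ContinuousLinearMap.le_opNorm₂ _ _ _
        _ ≤ C1 * B * P := by gcongr
    have e3 : ‖G (β t + s • V t) (deriv β t + s • deriv V t) (deriv V t)‖ ≤ C1 * P * B := by
      calc _ ≤ ‖G (β t + s • V t)‖ * ‖deriv β t + s • deriv V t‖ * ‖deriv V t‖ :=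
            ContinuousLinearMap.le_opNorm₂ _ _ _
        _ ≤ C1 * P * B := by gcongr
    have e4 : F' s t = (fderiv ℝ G (β t + s • V t) (V t)) (deriv β t + s • deriv V t)
        (deriv β t + s • deriv V t) + G (β t + s • V t) (deriv V t) (deriv β t + s • deriv V t)
        + G (β t + s • V t) (deriv β t + s • deriv V t) (deriv V t) := rfl
    rw [e4]
    exact (norm_add_le _ _).trans (add_le_add ((norm_add_le _ _).trans (add_le_add e1 e2)) e3)
  -- derivative
  have dF : ∀ s : ℝ, |s| ≤ s0 → ∀ t ∈ Ioo a b, HasDerivAt (fun s => F s t) (F' s t) s := by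
    intro s hs t ht
    have hz : HasDerivAt (fun s : ℝ => β t + s • V t) (V t) s := by
      have := ((hasDerivAt_id s).smul_const (V t)).const_add (β t)
      simpa using this
    have hqd : HasDerivAt (fun s : ℝ => deriv β t + s • deriv V t) (deriv V t) s := by
      have := ((hasDerivAt_id s).smul_const (deriv V t)).const_add (deriv β t)
      simpa using this
    have hmem : β t + s • V t ∈ U := hδU (hsmall s hs t (hsub ht))
    have hGf : HasFDerivAt G (fderiv ℝ G (β t + s • V t)) (β t + s • V t) :=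
      ((hG.contDiffAt (hU.mem_nhds hmem)).differentiableAt (by simp)).hasFDerivAt
    have h1 : HasDerivAt (fun s : ℝ => G (β t + s • V t)) (fderiv ℝ G (β t + s • V t) (V t)) s :=
      hGf.comp_hasDerivAt s hz
    exact (h1.clm_apply hqd).clm_apply hqd
  have hae : ∀ᵐ t ∂(volume.restrict (Ioo a b)), t ∈ Ioo a b := ae_restrict_mem measurableSet_Ioo
  have hfin : IsFiniteMeasure (volume.restrict (Ioo a b)) := by
    constructor
    rw [Measure.restrict_apply_univ]
    exact measure_Ioo_lt_top
  have iF : Integrable (F 0) (volume.restrict (Ioo a b)) :=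
    Integrable.of_bound (mF 0 h00) (C1 * P * P) (hae.mono fun t ht => bF 0 h00 t ht)
  have hmain := hasDerivAt_integral_of_dominated_loc_of_deriv_le (𝕜 := ℝ)
    (μ := volume.restrict (Ioo a b)) (F := F) (F' := F') (x₀ := 0)
    (s := Metric.closedBall (0:ℝ) s0) (bound := fun _ => C2 * A * P * P + C1 * B * P + C1 * P * B)
    (Metric.closedBall_mem_nhds _ hs0pos) (hball.mono fun s hs => mF s hs) iF mF'
    (hae.mono fun t ht s hs => bF' s (by simpa [Real.norm_eq_abs] using hs) t ht)
    (integrable_const _)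
    (hae.mono fun t ht s hs => dF s (by simpa [Real.norm_eq_abs] using hs) t ht)
  have hderiv := hmain.2
  have hconv : ∀ f : ℝ → ℝ, ∫ t in a..b, f t = ∫ t, f t ∂(volume.restrict (Ioo a b)) := by
    intro f
    rw [intervalIntegral.integral_of_le hab.le, integral_Ioc_eq_integral_Ioo]
  have hloc : IsLocalMin (fun s => ∫ t, F s t ∂(volume.restrict (Ioo a b))) 0 := by
    filter_upwards [hmin] with s hs
    rw [hconv, hconv] at hs
    refine le_trans (le_of_eq ?_) hs
    refine integral_congr_ae (Eventually.of_forall fun t => ?_)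
    simp [F]
  have hzero := hloc.hasDerivAt_eq_zero hderiv
  rw [hconv, ← hzero]
  refine integral_congr_ae (hae.mono fun t ht => ?_)
  have hsymm := (hPD (β t) (hβU t (hsub ht))).1 (deriv β t) (deriv V t)
  simp only [F', zero_smul, add_zero, ContinuousLinearMap.add_apply]
  rw [← hsymm]
  ring

end Pool.Agent.Helper53.SRD
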