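import Pool.Agent.Helper54.SRD.Basic

/-! Packet SRD-OPS (helper54, MP_d08e19): closure properties of the speed bound. -/

open Set Filter MeasureTheory
open scoped Manifold ContDiff Topology

noncomputable section

set_option maxSynthPendingDepth 3

namespace Pool.Agent.Helper53.SRD

open Pool.Agent.Helper54.SRD

theorem isPD_at {E : Type*} [NormedAddCommGroup E] [NormedSpace ℝ E] {M : Type*}
    [TopologicalSpace M] [ChartedSpace E M] (G : AMetric E M) (y : M) :
    IsPD (G.G y (ch y y)) :=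
  ⟨fun u v => G.symm y _ (ch_mem (mem_src y)) u v, fun u hu => G.pos y _ (ch_mem (mem_src y)) u hu⟩

theorem ops (E : Type*) [NormedAddCommGroup E] [NormedSpace ℝ E] [FiniteDimensional ℝ E]
    (M : Type*) [TopologicalSpace M] [ChartedSpace E M] [IsManifold 𝓘(ℝ, E) ∞ M]
    (hNM : S_NM E) : S_OPS E M := by
  intro G
  refine ⟨?_, ?_, ?_, ?_, ?_⟩
  · intro c c' γ t hc h
    refine ⟨h.1, fun δ hδ => ?_⟩
    filter_upwards [h.2 δ hδ] with p hp
    refine hp.trans ?_
    exact mul_le_mul_of_nonneg_right (by linarith) (abs_nonneg _)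
  · intro c a b γ t hc h
    have haff : Continuous (fun s : ℝ => a * s + b) := by fun_prop
    refine ⟨ContinuousAt.comp (g := γ) (f := fun s : ℝ => a * s + b) h.1 haff.continuousAt,
      fun δ hδ => ?_⟩
    have hpos : 0 < |a| + 1 := by positivity
    have h1 := h.2 (δ / (|a| + 1)) (by positivity)
    have h2 : Tendsto (fun p : ℝ × ℝ => (a * p.1 + b, a * p.2 + b)) (𝓝 (t, t))
        (𝓝 (a * t + b, a * t + b)) := by
      have : Continuous (fun p : ℝ × ℝ => (a * p.1 + b, a * p.2 + b)) := by fun_prop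
      exact this.tendsto (t, t)
    filter_upwards [h2.eventually h1] with p hp
    refine hp.trans ?_
    have h3 : a * p.2 + b - (a * p.1 + b) = a * (p.2 - p.1) := by ring
    rw [h3, abs_mul]
    have h4 : (c + δ / (|a| + 1)) * |a| ≤ |a| * c + δ := by
      have h5 : δ / (|a| + 1) * |a| ≤ δ := by
        rw [div_mul_eq_mul_div, div_le_iff₀ hpos]
        nlinarith [abs_nonneg a]
      nlinarith
    calc (c + δ / (|a| + 1)) * (|a| * |p.2 - p.1|)
        = ((c + δ / (|a| + 1)) * |a|) * |p.2 - p.1| := by ring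
      _ ≤ (|a| * c + δ) * |p.2 - p.1| := mul_le_mul_of_nonneg_right h4 (abs_nonneg _)
  · intro c γ γ' t hγ h
    have ht : γ t = γ' t := hγ.eq_of_nhds
    refine ⟨h.1.congr hγ, fun δ hδ => ?_⟩
    have h1 : ∀ᶠ p : ℝ × ℝ in 𝓝 (t, t), γ p.1 = γ' p.1 :=
      (continuous_fst.tendsto (t, t)).eventually hγ
    have h2 : ∀ᶠ p : ℝ × ℝ in 𝓝 (t, t), γ p.2 = γ' p.2 :=
      (continuous_snd.tendsto (t, t)).eventually hγ
    filter_upwards [h.2 δ hδ, h1, h2] with p hp h3 h4
    rw [ht, h3, h4] at hp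
    exact hp
  · intro c γ₁ γ₂ t hc heq h1 h2
    have hval : (if t ≤ t then γ₁ t else γ₂ t) = γ₁ t := by simp
    constructor
    · show Tendsto (fun s => if s ≤ t then γ₁ s else γ₂ s) (𝓝 t)
        (𝓝 (if t ≤ t then γ₁ t else γ₂ t))
      rw [hval]
      intro N hN
      have e1 : ∀ᶠ s in 𝓝 t, γ₁ s ∈ N := h1.1 hN
      have e2 : ∀ᶠ s in 𝓝 t, γ₂ s ∈ N := by
        rw [heq] at hN
        exact h2.1 hN
      show ∀ᶠ s in 𝓝 t, (if s ≤ t then γ₁ s else γ₂ s) ∈ N
      filter_upwards [e1, e2] with s hs1 hs2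
      split_ifs
      · exact hs1
      · exact hs2
    · intro δ hδ
      show ∀ᶠ p : ℝ × ℝ in 𝓝 (t, t),
        nm (G.G (if t ≤ t then γ₁ t else γ₂ t)
          (ch (if t ≤ t then γ₁ t else γ₂ t) (if t ≤ t then γ₁ t else γ₂ t)))
          (ch (if t ≤ t then γ₁ t else γ₂ t) (if p.2 ≤ t then γ₁ p.2 else γ₂ p.2)
            - ch (if t ≤ t then γ₁ t else γ₂ t) (if p.1 ≤ t then γ₁ p.1 else γ₂ p.1))
            ≤ (c + δ) * |p.2 - p.1|
      simp only [le_refl, if_true]
      have hB := isPD_at G (γ₁ t)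
      obtain ⟨htri, -, -, -⟩ := hNM _ hB
      have q1 := h1.2 δ hδ
      have q2 := h2.2 δ hδ
      rw [← heq] at q2
      set B := G.G (γ₁ t) (ch (γ₁ t) (γ₁ t)) with hBdef
      have m1 : Tendsto (fun p : ℝ × ℝ => (p.1, t)) (𝓝 (t, t)) (𝓝 (t, t)) := by
        have : Continuous (fun p : ℝ × ℝ => (p.1, t)) := by fun_prop
        exact this.tendsto (t, t)
      have m2 : Tendsto (fun p : ℝ × ℝ => (t, p.2)) (𝓝 (t, t)) (𝓝 (t, t)) := by
        have : Continuous (fun p : ℝ × ℝ => (t, p.2)) := by fun_prop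
        exact this.tendsto (t, t)
      filter_upwards [q1, q2, m1.eventually q1, m2.eventually q1, m1.eventually q2,
        m2.eventually q2] with p a1 a2 a3 a4 a5 a6
      by_cases hp1 : p.1 ≤ t <;> by_cases hp2 : p.2 ≤ t
      · simpa only [hp1, hp2, if_true] using a1
      · simp only [hp1, hp2, if_true, if_false]
        have e1 : (ch (γ₁ t) (γ₂ p.2) : E) - ch (γ₁ t) (γ₁ p.1)
            = (ch (γ₁ t) (γ₁ t) - ch (γ₁ t) (γ₁ p.1))
              + (ch (γ₁ t) (γ₂ p.2) - ch (γ₁ t) (γ₂ t)) := by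
          rw [← heq]; abel
        rw [e1]
        refine (htri _ _).trans ((add_le_add a3 a6).trans (le_of_eq ?_))
        have h3 : 0 ≤ t - p.1 := by linarith
        have h4 : 0 ≤ p.2 - t := by linarith [not_le.1 hp2]
        rw [abs_of_nonneg h3, abs_of_nonneg h4, abs_of_nonneg (by linarith)]
        ring
      · simp only [hp1, hp2, if_true, if_false]
        have e1 : (ch (γ₁ t) (γ₁ p.2) : E) - ch (γ₁ t) (γ₂ p.1)
            = (ch (γ₁ t) (γ₂ t) - ch (γ₁ t) (γ₂ p.1))
              + (ch (γ₁ t) (γ₁ p.2) - ch (γ₁ t) (γ₁ t)) := by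
          rw [← heq]; abel
        rw [e1]
        refine (htri _ _).trans ((add_le_add a5 a4).trans (le_of_eq ?_))
        have h3 : t - p.1 ≤ 0 := by linarith [not_le.1 hp1]
        have h4 : p.2 - t ≤ 0 := by linarith
        rw [abs_of_nonpos h3, abs_of_nonpos h4, abs_of_nonpos (by linarith)]
        ring
      · simpa only [hp1, hp2, if_false] using a2
  · intro c x t hc
    refine ⟨continuousAt_const, fun δ hδ => ?_⟩
    filter_upwards with p
    simp only [sub_self]
    have h0 : nm (G.G x (ch x x)) (0 : E) = 0 := by simp [nm]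
    rw [h0]
    positivity

end Pool.Agent.Helper53.SRD
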